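import Pool.Agent.Q56.SP.Main

/-!
Every nonzero representation of the symmetric group of `Fin n × Bool` has a nonzero vector which is
invariant under the permutations of `Fin n`.
-/

set_option autoImplicit false
set_option linter.unusedSectionVars false

open Equiv Finset

namespace Pool.Agent.Q56.SP

variable {n : ℕ}

/-- the flip of the pairs in `D` -/
def fl (D : Finset (Fin n)) : Perm (Fin n × Bool) where
  toFun x := if x.1 ∈ D then (x.1, !x.2) else x
  invFun x := if x.1 ∈ D then (x.1, !x.2) else x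
  left_inv x := by
    by_cases h : x.1 ∈ D <;> simp [h]
  right_inv x := by
    by_cases h : x.1 ∈ D <;> simp [h]

theorem fl_apply (D : Finset (Fin n)) (x : Fin n × Bool) :
    fl D x = if x.1 ∈ D then (x.1, !x.2) else x := rfl

theorem fl_invol (D : Finset (Fin n)) (x : Fin n × Bool) : fl D (fl D x) = x := by
  rw [fl_apply, fl_apply]
  by_cases h : x.1 ∈ D <;> simp [h]

theorem fl_ne (D : Finset (Fin n)) (x : Fin n × Bool) : fl D x ≠ x ↔ x.1 ∈ D := by
  rw [fl_apply]
  by_cases h : x.1 ∈ D
  · simp only [h, if_true, iff_true]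
    intro he
    have := congrArg Prod.snd he
    simp at this
  · simp [h]

theorem cycleType_of_invol {α : Type*} [Fintype α] [DecidableEq α] (θ : Perm α)
    (h : ∀ x, θ (θ x) = x) :
    θ.cycleType = Multiset.replicate (θ.support.card / 2) 2 := by
  have h1 : θ ^ 2 = 1 := by
    ext x
    rw [pow_two, Perm.mul_apply, h]; rfl
  have : Fact (Nat.Prime 2) := ⟨Nat.prime_two⟩
  have h2 := Perm.pow_prime_eq_one_iff.1 h1
  have h3 : θ.cycleType = Multiset.replicate (Multiset.card θ.cycleType) 2 :=
    Multiset.eq_replicate_card.2 h2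
  have h4 := Perm.sum_cycleType θ
  rw [h3, Multiset.sum_replicate] at h4
  rw [← h4]
  simp only [smul_eq_mul, Nat.mul_div_cancel _ (Nat.zero_lt_succ 1)]
  exact h3

theorem conj_fl (θ : Perm (Fin n × Bool)) (h : ∀ x, θ (θ x) = x) :
    ∃ (D : Finset (Fin n)) (g : Perm (Fin n × Bool)), g * θ * g⁻¹ = fl D := by
  classical
  have h1 := cycleType_of_invol θ h
  have h2 : θ.support.card = 2 * (θ.support.card / 2) := by
    have h3 := Perm.sum_cycleType θ
    rw [h1, Multiset.sum_replicate, smul_eq_mul] at h3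
    omega
  have h3 : θ.support.card / 2 ≤ n := by
    have h4 : θ.support.card ≤ Fintype.card (Fin n × Bool) := card_le_univ _
    rw [Fintype.card_prod, Fintype.card_fin, Fintype.card_bool] at h4
    omega
  obtain ⟨D, hD1, hD⟩ := exists_subset_card_eq (s := (univ : Finset (Fin n)))
    (n := θ.support.card / 2) (by rw [card_univ, Fintype.card_fin]; exact h3)
  have h4 : (fl D).support.card = 2 * D.card := by
    have h5 : (fl D).support = D ×ˢ (univ : Finset Bool) := by
      ext x
      rw [Perm.mem_support, fl_ne]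
      simp
    rw [h5, card_product, card_univ, Fintype.card_bool, mul_comm]
  have h5 : IsConj θ (fl D) := by
    rw [Perm.isConj_iff_cycleType_eq, h1, cycleType_of_invol (fl D) (fl_invol D), h4, hD]
    congr 1
    omega
  obtain ⟨g, hg⟩ := isConj_iff.1 h5
  exact ⟨D, g, hg⟩

theorem chi_conj {α : Type*} [Fintype α] [DecidableEq α] (θ g h : Perm α)
    (hc : ∀ x, (g * θ * g⁻¹) (h x) = h ((g * θ * g⁻¹) x)) :
    (∀ x, θ ((g⁻¹ * h * g) x) = (g⁻¹ * h * g) (θ x)) ∧
      chi θ (g⁻¹ * h * g) = chi (g * θ * g⁻¹) h := by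
  have hc' : ∀ x, θ ((g⁻¹ * h * g) x) = (g⁻¹ * h * g) (θ x) := by
    intro x
    have h1 := hc (g x)
    simp only [Perm.mul_apply] at h1 ⊢
    have h2 : g⁻¹ (g x) = x := by simp
    rw [h2] at h1
    have h3 := congrArg (fun y => g⁻¹ y) h1
    have h4 : ∀ y, g⁻¹ (g y) = y := fun y => by simp
    rw [h4] at h3
    exact h3
  refine ⟨hc', ?_⟩
  rw [chi_eq hc', chi_eq hc]
  refine Perm.sign_eq_sign_of_equiv _ _ (g.subtypeEquiv ?_) ?_
  · intro x
    have h4 : g⁻¹ (g x) = x := by simp
    rw [Perm.mul_apply, Perm.mul_apply, h4]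
    exact not_congr g.injective.eq_iff.symm
  · rintro ⟨x, hx⟩
    apply Subtype.ext
    change g ((g⁻¹ * h * g) x) = h (g x)
    simp [Perm.mul_apply]

/-- the sum of eigenvectors of an endomorphism, with the same eigenvalue -/
theorem eigen_sum {ι V : Type*} [AddCommGroup V] [Module ℚ V] (s : Finset ι) (T : Module.End ℚ V)
    (v : ι → V) (μ : ι → ℚ) (h : ∀ i ∈ s, T (v i) = μ i • v i) (h0 : ∑ i ∈ s, v i = 0) (c : ℚ) :
    ∑ i ∈ s.filter (fun i => μ i = c), v i = 0 := by
  classical
  have h1 : ∀ (p : Polynomial ℚ) i, i ∈ s → Polynomial.aeval T p (v i) = p.eval (μ i) • v i := by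
    intro p i hi
    induction p using Polynomial.induction_on' with
    | add p q hp hq =>
      rw [map_add, LinearMap.add_apply, hp, hq, Polynomial.eval_add, add_smul]
    | monomial m a =>
      rw [Polynomial.aeval_monomial, Polynomial.eval_monomial]
      have h2 : ∀ m : ℕ, (T ^ m) (v i) = μ i ^ m • v i := by
        intro m
        induction m with
        | zero => simp
        | succ m ih =>
          rw [pow_succ', Module.End.mul_apply, ih, map_smul, h i hi, smul_smul, pow_succ]
      change algebraMap ℚ (Module.End ℚ V) a ((T ^ m) (v i)) = _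
      rw [h2, Module.algebraMap_end_apply, smul_smul]
  set A := (s.image μ).erase c with hA
  set p : Polynomial ℚ := ∏ a ∈ A, (Polynomial.X - Polynomial.C a) with hp
  have h2 : ∑ i ∈ s, p.eval (μ i) • v i = 0 := by
    rw [← sum_congr rfl fun i hi => h1 p i hi, ← map_sum, h0, map_zero]
  have h3 : ∀ i ∈ s, p.eval (μ i) • v i = p.eval c • (if μ i = c then v i else 0) := by
    intro i hi
    by_cases hc : μ i = c
    · rw [if_pos hc, hc]
    · have h4 : p.eval (μ i) = 0 := by
        rw [hp, Polynomial.eval_prod]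
        refine prod_eq_zero (i := μ i) ?_ (by simp)
        rw [hA, mem_erase]
        exact ⟨hc, mem_image_of_mem _ hi⟩
      rw [h4, zero_smul, if_neg hc, smul_zero]
  rw [sum_congr rfl h3, ← smul_sum, ← sum_filter] at h2
  have h4 : p.eval c ≠ 0 := by
    rw [hp, Polynomial.eval_prod]
    refine prod_ne_zero_iff.2 fun a ha => ?_
    rw [hA, mem_erase] at ha
    simp only [Polynomial.eval_sub, Polynomial.eval_X, Polynomial.eval_C]
    exact sub_ne_zero.2 ha.1.symm
  exact (smul_eq_zero.1 h2).resolve_left h4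

/-- the permutation of the pairs -/
def dg (σ : Perm (Fin n)) : Perm (Fin n × Bool) := σ.prodCongr (Equiv.refl Bool)

theorem dg_apply (σ : Perm (Fin n)) (x : Fin n × Bool) : dg σ x = (σ x.1, x.2) := rfl

theorem dg_mul (σ τ : Perm (Fin n)) : dg (σ * τ) = dg σ * dg τ := rfl

/-- **Invariants of the diagonal symmetric group.** -/
theorem exists_diag {V : Type*} [AddCommGroup V] [Module ℚ V]
    (ρ : Representation ℚ (Perm (Fin n × Bool)) V) [Nontrivial V] :
    ∃ v : V, v ≠ 0 ∧ ∀ σ : Perm (Fin n), ρ (dg σ) v = v := by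
  classical
  obtain ⟨θ, hθ, w, hw, hw2⟩ := exists_model ρ
  obtain ⟨D, g, hg⟩ := conj_fl θ hθ
  set u := ρ g w with hu
  have hu0 : u ≠ 0 := by
    intro h
    have h1 : ρ g⁻¹ u = w := by
      rw [hu, ← Module.End.mul_apply, ← map_mul, inv_mul_cancel, map_one, Module.End.one_apply]
    rw [h, map_zero] at h1
    exact hw h1.symm
  have hu2 : ∀ h : Perm (Fin n × Bool), (∀ x, fl D (h x) = h (fl D x)) →
      ρ h u = ((chi (fl D) h : ℤ) : ℚ) • u := by
    intro h hh
    rw [← hg] at hh ⊢
    obtain ⟨h1, h2⟩ := chi_conj θ g h hh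
    rw [← h2]
    have h3 := hw2 _ h1
    have h4 : h * g = g * (g⁻¹ * h * g) := by group
    rw [hu, ← Module.End.mul_apply, ← map_mul, h4, map_mul, Module.End.mul_apply, h3, map_smul]
  -- the flips of one pair
  let t : Fin n → Perm (Fin n × Bool) := fun i => swap (i, false) (i, true)
  have ht : ∀ i x, x.1 ≠ i → t i x = x := by
    intro i x hx
    refine swap_apply_of_ne_of_ne ?_ ?_
    · intro h; exact hx (by rw [h])
    · intro h; exact hx (by rw [h])
  have ht1 : ∀ i (b : Bool), t i (i, b) = (i, !b) := by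
    intro i b
    cases b
    · exact swap_apply_left _ _
    · exact swap_apply_right _ _
  have htc : ∀ i x, fl D (t i x) = t i (fl D x) := by
    rintro i ⟨j, b⟩
    by_cases hj : j = i
    · subst hj
      rw [ht1]
      by_cases hD : j ∈ D
      · simp only [fl_apply, hD, if_true]
        rw [ht1]
      · simp only [fl_apply, hD, if_false]
        rw [ht1]
    · rw [ht i (j, b) hj]
      have h1 : (fl D (j, b)).1 = j := by
        rw [fl_apply]
        by_cases hD : (j, b).1 ∈ D
        · rw [if_pos hD]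
        · rw [if_neg hD]
      rw [ht i (fl D (j, b)) (by rw [h1]; exact hj)]
  let ε : Fin n → ℚ := fun i => if i ∈ D then -1 else 1
  have hε : ∀ i, ρ (t i) u = ε i • u := by
    intro i
    rw [hu2 _ (htc i)]
    congr 1
    rw [chi_eq (htc i)]
    by_cases hi : i ∈ D
    · rw [Perm.sign_subtypePerm (p := fun x => fl D x ≠ x) (t i) (supp_iff (htc i))
        (fun x hx => by
          rw [fl_ne]
          by_contra h
          exact hx (ht i x (fun h1 => h (h1 ▸ hi))))]
      rw [Perm.sign_swap (by simp)]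
      simp [ε, hi]
    · have h1 : Perm.subtypePerm (p := fun x => fl D x ≠ x) (t i) (supp_iff (htc i)) = 1 := by
        ext1 ⟨x, hx⟩
        apply Subtype.ext
        change t i x = x
        refine ht i x fun h => hi ?_
        rw [fl_ne, h] at hx
        exact hx
      rw [h1]
      simp [ε, hi]
  -- the permutations of the pairs
  have hσc : ∀ σ : Perm (Fin n), (∀ i ∈ D, σ i ∈ D) → ρ (dg σ) u = u := by
    intro σ hσ
    have hσ' : ∀ i, σ i ∈ D ↔ i ∈ D := by
      intro i
      refine ⟨fun h => ?_, hσ i⟩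
      have h1 : D.image σ = D :=
        eq_of_subset_of_card_le (fun x hx => by
          obtain ⟨y, hy, rfl⟩ := mem_image.1 hx
          exact hσ y hy) (by rw [card_image_of_injective _ σ.injective])
      rw [← h1] at h
      obtain ⟨y, hy, hyx⟩ := mem_image.1 h
      rwa [σ.injective hyx] at hy
    have hc : ∀ x, fl D (dg σ x) = dg σ (fl D x) := by
      intro x
      rw [fl_apply, fl_apply, dg_apply]
      by_cases hx : x.1 ∈ D
      · rw [if_pos ((hσ' _).2 hx), if_pos hx]; rfl
      · rw [if_neg (fun h => hx ((hσ' _).1 h)), if_neg hx]; rfl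
    rw [hu2 _ hc, chi_eq hc]
    have h1 : Perm.sign (Perm.subtypePerm (p := fun x => fl D x ≠ x) (dg σ) (supp_iff hc)) = 1 := by
      refine sign_eq_one _ (Perm.subtypePerm (p := fun x => fl D x ≠ x) (fl D)
        (fun x => supp_iff (fun _ => rfl) x)) (fun x => x.1.2 = true)
        (fun x => Subtype.ext (fl_invol D x.1)) ?_ ?_ ?_
      · rintro ⟨x, hx⟩
        change (fl D x).2 = true ↔ ¬ x.2 = true
        rw [fl_ne] at hx
        rw [fl_apply, if_pos hx]
        simp
      · rintro ⟨x, hx⟩
        rfl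
      · rintro ⟨x, hx⟩
        apply Subtype.ext
        exact (hc x).symm
    rw [h1]
    simp
  refine ⟨∑ σ : Perm (Fin n), ρ (dg σ) u, ?_, ?_⟩
  · intro hsum
    have hcomm : ∀ (σ : Perm (Fin n)) (i : Fin n), t i * dg σ = dg σ * t (σ⁻¹ i) := by
      intro σ i
      change swap _ _ * _ = _ * swap _ _
      rw [mul_swap_eq_swap_mul]
      congr 2 <;> simp [dg_apply]
    set T : Module.End ℚ V := ∑ i ∈ D, ρ (t i) with hT
    have hev : ∀ σ ∈ (univ : Finset (Perm (Fin n))), T (ρ (dg σ) u) =
        (∑ i ∈ D, ε (σ⁻¹ i)) • ρ (dg σ) u := by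
      intro σ _
      rw [hT, LinearMap.sum_apply, sum_smul]
      refine sum_congr rfl fun i _ => ?_
      rw [← Module.End.mul_apply, ← map_mul, hcomm, map_mul, Module.End.mul_apply, hε, map_smul]
    have h1 := eigen_sum univ T (fun σ => ρ (dg σ) u) (fun σ => ∑ i ∈ D, ε (σ⁻¹ i)) hev hsum
      (-(D.card : ℚ))
    have h2 : ∀ σ : Perm (Fin n), ∑ i ∈ D, ε (σ⁻¹ i) = -(D.card : ℚ) → ρ (dg σ) u = u := by
      intro σ hσ
      have h3 : ∀ i ∈ D, ε (σ⁻¹ i) = -1 := by
        have h4 : ∑ i ∈ D, (ε (σ⁻¹ i) + 1) = 0 := by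
          rw [sum_add_distrib, hσ]; simp
        have h5 : ∀ i ∈ D, 0 ≤ ε (σ⁻¹ i) + 1 := by
          intro i _
          simp only [ε]
          split_ifs <;> norm_num
        intro i hi
        have := (sum_eq_zero_iff_of_nonneg h5).1 h4 i hi
        linarith
      have h4 : ∀ i ∈ D, σ⁻¹ i ∈ D := by
        intro i hi
        by_contra hcon
        have := h3 i hi
        simp only [ε, hcon, if_false] at this
        norm_num at this
      have h5 := hσc σ⁻¹ h4
      have h6 : ρ (dg σ) (ρ (dg σ⁻¹) u) = u := by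
        rw [← Module.End.mul_apply, ← map_mul, ← dg_mul, mul_inv_cancel]
        have : dg (1 : Perm (Fin n)) = 1 := rfl
        rw [this, map_one, Module.End.one_apply]
      rw [h5] at h6
      exact h6
    rw [sum_congr rfl fun σ hσ => h2 σ (mem_filter.1 hσ).2, sum_const] at h1
    have h3 : (univ.filter fun σ : Perm (Fin n) => ∑ i ∈ D, ε (σ⁻¹ i) = -(D.card : ℚ)).card ≠ 0 := by
      rw [card_ne_zero]
      refine ⟨1, ?_⟩
      rw [mem_filter]
      refine ⟨mem_univ _, ?_⟩
      have : ∀ i ∈ D, ε ((1 : Perm (Fin n))⁻¹ i) = -1 := by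
        intro i hi
        simp [ε, hi]
      rw [sum_congr rfl this]
      simp
    rw [← Nat.cast_smul_eq_nsmul ℚ] at h1
    exact hu0 ((smul_eq_zero.1 h1).resolve_left (by exact_mod_cast h3))
  · intro τ
    rw [map_sum]
    refine Fintype.sum_equiv (Equiv.mulLeft τ) _ _ fun σ => ?_
    rw [← Module.End.mul_apply, ← map_mul, ← dg_mul]
    rfl

end Pool.Agent.Q56.SP
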