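import Pool.Agent.Q56.SP.Diag

/-!
An equivariant map between representations of the symmetric group of `Fin n × Bool ⊕ ι` is
bijective if and only if it is bijective on the invariants of `Perm (Fin n)`.
-/

set_option autoImplicit false
set_option linter.unusedSectionVars false

open Equiv Finset

namespace Pool.Agent.Q56.SP

variable {n : ℕ} {ι : Type}

/-- the permutation of the pairs, on `Fin n × Bool ⊕ ι` -/
def dgs (ι : Type) (σ : Perm (Fin n)) : Perm ((Fin n × Bool) ⊕ ι) :=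
  (σ.prodCongr (Equiv.refl Bool)).sumCongr (Equiv.refl ι)

theorem dgs_mul (σ τ : Perm (Fin n)) : dgs ι (σ * τ) = dgs ι σ * dgs ι τ := by
  ext x
  rcases x with x | x <;> rfl

theorem dgs_one : dgs ι (1 : Perm (Fin n)) = 1 := by
  ext x
  rcases x with x | x <;> rfl

section real

variable {V W Z : Type} [AddCommGroup V] [Module ℝ V] [AddCommGroup W] [Module ℝ W]
  [AddCommGroup Z] [Module ℝ Z]

/-- A nonzero real representation has a nonzero vector fixed by the permutations of the pairs. -/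
theorem exists_inv (ρ : Representation ℝ (Perm ((Fin n × Bool) ⊕ ι)) V) [Nontrivial V] :
    ∃ v : V, v ≠ 0 ∧ ∀ σ : Perm (Fin n), ρ (dgs ι σ) v = v := by
  let _ : Module ℚ V := Module.compHom V (algebraMap ℚ ℝ)
  let ρ' : Representation ℚ (Perm (Fin n × Bool)) V :=
    { toFun := fun g => (ρ (g.sumCongr (Equiv.refl ι))).toAddMonoidHom.toRatLinearMap
      map_one' := by
        ext v
        change ρ ((1 : Perm (Fin n × Bool)).sumCongr (1 : Perm ι)) v = v
        rw [Perm.sumCongr_one, map_one]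
        rfl
      map_mul' := by
        intro g h
        ext v
        change ρ ((g * h).sumCongr (1 : Perm ι)) v =
          ρ (g.sumCongr (1 : Perm ι)) (ρ (h.sumCongr (1 : Perm ι)) v)
        rw [← Module.End.mul_apply, ← map_mul, Perm.sumCongr_mul, one_mul] }
  obtain ⟨v, hv, hv2⟩ := exists_diag ρ'
  exact ⟨v, hv, hv2⟩

/-- the average over `Perm (Fin n)` -/
noncomputable def av (ρ : Representation ℝ (Perm ((Fin n × Bool) ⊕ ι)) V) (v : V) : V :=
  ((n.factorial : ℝ)⁻¹) • ∑ σ : Perm (Fin n), ρ (dgs ι σ) v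

theorem av_inv (ρ : Representation ℝ (Perm ((Fin n × Bool) ⊕ ι)) V) (v : V) (τ : Perm (Fin n)) :
    ρ (dgs ι τ) (av ρ v) = av ρ v := by
  rw [av, map_smul, map_sum]
  congr 1
  refine Fintype.sum_equiv (Equiv.mulLeft τ) _ _ fun σ => ?_
  rw [← Module.End.mul_apply, ← map_mul, ← dgs_mul]
  rfl

theorem av_of_inv (ρ : Representation ℝ (Perm ((Fin n × Bool) ⊕ ι)) V) (v : V)
    (h : ∀ σ : Perm (Fin n), ρ (dgs ι σ) v = v) : av ρ v = v := by
  rw [av, sum_congr rfl fun σ _ => h σ, sum_const, card_univ, Fintype.card_perm, Fintype.card_fin,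
    ← Nat.cast_smul_eq_nsmul ℝ, smul_smul, inv_mul_cancel₀, one_smul]
  exact_mod_cast n.factorial_ne_zero

theorem av_mem (ρ : Representation ℝ (Perm ((Fin n × Bool) ⊕ ι)) V) (S : Submodule ℝ V)
    (hS : ∀ g, ∀ v ∈ S, ρ g v ∈ S) {v : V} (hv : v ∈ S) : av ρ v ∈ S :=
  S.smul_mem _ (S.sum_mem fun _ _ => hS _ _ hv)

theorem av_map {ρ : Representation ℝ (Perm ((Fin n × Bool) ⊕ ι)) V}
    {τ : Representation ℝ (Perm ((Fin n × Bool) ⊕ ι)) W} (f : V →ₗ[ℝ] W)
    (hf : ∀ g v, f (ρ g v) = τ g (f v)) (v : V) : f (av ρ v) = av τ (f v) := by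
  rw [av, av, map_smul, map_sum]
  congr 1
  exact sum_congr rfl fun σ _ => hf _ _

/-- An invariant nonzero submodule contains a nonzero vector fixed by the permutations of the
pairs. -/
theorem exists_inv_mem (ρ : Representation ℝ (Perm ((Fin n × Bool) ⊕ ι)) V) (S : Submodule ℝ V)
    (hS : ∀ g, ∀ v ∈ S, ρ g v ∈ S) (h0 : S ≠ ⊥) :
    ∃ v ∈ S, v ≠ 0 ∧ ∀ σ : Perm (Fin n), ρ (dgs ι σ) v = v := by
  have : Nontrivial S := Submodule.nontrivial_iff_ne_bot.2 h0
  let ρ' : Representation ℝ (Perm ((Fin n × Bool) ⊕ ι)) S :=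
    { toFun := fun g => (ρ g).restrict (hS g)
      map_one' := by
        ext v
        change ρ 1 (v : V) = v
        rw [map_one]; rfl
      map_mul' := by
        intro g h
        ext v
        change ρ (g * h) (v : V) = ρ g (ρ h v)
        rw [map_mul]; rfl }
  obtain ⟨v, hv, hv2⟩ := exists_inv ρ'
  refine ⟨v, v.2, fun h => hv (Subtype.ext h), fun σ => congrArg Subtype.val (hv2 σ)⟩

/-- If the vectors of `S` fixed by the permutations of the pairs are in `T`, then `S ≤ T`. -/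
theorem le_of_inv (ρ : Representation ℝ (Perm ((Fin n × Bool) ⊕ ι)) V) (S T : Submodule ℝ V)
    (hS : ∀ g, ∀ v ∈ S, ρ g v ∈ S) (hT : ∀ g, ∀ v ∈ T, ρ g v ∈ T)
    (h : ∀ v ∈ S, (∀ σ : Perm (Fin n), ρ (dgs ι σ) v = v) → v ∈ T) : S ≤ T := by
  let ρ' : Representation ℝ (Perm ((Fin n × Bool) ⊕ ι)) (V ⧸ T) :=
    { toFun := fun g => T.mapQ T (ρ g) (hT g)
      map_one' := by
        ext v
        change T.mkQ (ρ 1 v) = T.mkQ v
        rw [map_one]; rfl
      map_mul' := by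
        intro g h
        ext v
        change T.mkQ (ρ (g * h) (v : V)) = T.mkQ (ρ g (ρ h v))
        rw [map_mul]; rfl }
  by_contra hcon
  obtain ⟨q, hq, hq0, hq2⟩ := exists_inv_mem ρ' (S.map T.mkQ) (by
    rintro g _ ⟨v, hv, rfl⟩
    exact ⟨ρ g v, hS g v hv, rfl⟩) (by
    intro h0
    apply hcon
    intro v hv
    have : T.mkQ v = 0 := by
      have h1 : T.mkQ v ∈ S.map T.mkQ := ⟨v, hv, rfl⟩
      rw [h0] at h1
      exact h1
    exact (Submodule.Quotient.mk_eq_zero T).1 this)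
  obtain ⟨v, hv, rfl⟩ := hq
  have h1 := h (av ρ v) (av_mem ρ S hS hv) (av_inv ρ v)
  have h2 : T.mkQ (av ρ v) = av ρ' (T.mkQ v) := av_map (ρ := ρ) (τ := ρ') T.mkQ (fun g v => rfl) v
  rw [av_of_inv ρ' _ hq2] at h2
  exact hq0 (h2.symm.trans ((Submodule.Quotient.mk_eq_zero T).2 h1))

/-- the vectors fixed by the permutations of the pairs -/
def fx (ρ : Representation ℝ (Perm ((Fin n × Bool) ⊕ ι)) V) : Submodule ℝ V where
  carrier := {v | ∀ σ : Perm (Fin n), ρ (dgs ι σ) v = v}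
  add_mem' := fun hv hw σ => by rw [map_add, hv σ, hw σ]
  zero_mem' := fun σ => map_zero _
  smul_mem' := fun c v hv σ => by rw [map_smul, hv σ]

theorem mem_fx {ρ : Representation ℝ (Perm ((Fin n × Bool) ⊕ ι)) V} {v : V} :
    v ∈ fx ρ ↔ ∀ σ : Perm (Fin n), ρ (dgs ι σ) v = v := Iff.rfl

/-- the map on the vectors fixed by the permutations of the pairs -/
def fxMap {ρ : Representation ℝ (Perm ((Fin n × Bool) ⊕ ι)) V}
    {τ : Representation ℝ (Perm ((Fin n × Bool) ⊕ ι)) W} (f : V →ₗ[ℝ] W)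
    (hf : ∀ g v, f (ρ g v) = τ g (f v)) : fx ρ →ₗ[ℝ] fx τ :=
  f.restrict fun v hv σ => by rw [← hf, hv σ]

theorem fxMap_coe {ρ : Representation ℝ (Perm ((Fin n × Bool) ⊕ ι)) V}
    {τ : Representation ℝ (Perm ((Fin n × Bool) ⊕ ι)) W} (f : V →ₗ[ℝ] W)
    (hf : ∀ g v, f (ρ g v) = τ g (f v)) (v : fx ρ) : (fxMap f hf v : W) = f v := rfl

theorem injective_iff {ρ : Representation ℝ (Perm ((Fin n × Bool) ⊕ ι)) V}
    {τ : Representation ℝ (Perm ((Fin n × Bool) ⊕ ι)) W} (f : V →ₗ[ℝ] W)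
    (hf : ∀ g v, f (ρ g v) = τ g (f v)) :
    Function.Injective f ↔ Function.Injective (fxMap f hf) := by
  constructor
  · intro h v w hvw
    exact Subtype.ext (h (congrArg Subtype.val hvw))
  · intro h
    rw [← LinearMap.ker_eq_bot, eq_bot_iff]
    refine le_of_inv ρ _ _ ?_ ?_ ?_
    · intro g v hv
      rw [LinearMap.mem_ker] at hv ⊢
      rw [hf, hv, map_zero]
    · intro g v hv
      rw [Submodule.mem_bot] at hv ⊢
      rw [hv, map_zero]
    · intro v hv hv2
      have h1 : fxMap f hf ⟨v, hv2⟩ = fxMap f hf 0 := by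
        rw [map_zero]
        exact Subtype.ext hv
      exact congrArg Subtype.val (h h1)

theorem surjective_iff {ρ : Representation ℝ (Perm ((Fin n × Bool) ⊕ ι)) V}
    {τ : Representation ℝ (Perm ((Fin n × Bool) ⊕ ι)) W} (f : V →ₗ[ℝ] W)
    (hf : ∀ g v, f (ρ g v) = τ g (f v)) :
    Function.Surjective f ↔ Function.Surjective (fxMap f hf) := by
  constructor
  · rintro h ⟨w, hw⟩
    obtain ⟨v, rfl⟩ := h w
    refine ⟨⟨av ρ v, av_inv ρ v⟩, Subtype.ext ?_⟩
    rw [fxMap_coe]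
    exact (av_map f hf v).trans (av_of_inv τ _ hw)
  · intro h
    rw [← LinearMap.range_eq_top, eq_top_iff]
    refine le_of_inv τ _ _ (fun _ _ _ => trivial) ?_ ?_
    · rintro g _ ⟨v, rfl⟩
      exact ⟨ρ g v, hf g v⟩
    · intro w _ hw
      obtain ⟨v, hv⟩ := h ⟨w, hw⟩
      exact ⟨v, congrArg Subtype.val hv⟩

theorem bijective_iff {ρ : Representation ℝ (Perm ((Fin n × Bool) ⊕ ι)) V}
    {τ : Representation ℝ (Perm ((Fin n × Bool) ⊕ ι)) W} (f : V →ₗ[ℝ] W)
    (hf : ∀ g v, f (ρ g v) = τ g (f v)) :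
    Function.Bijective f ↔ Function.Bijective (fxMap f hf) :=
  and_congr (injective_iff f hf) (surjective_iff f hf)

theorem exact_iff {ρ : Representation ℝ (Perm ((Fin n × Bool) ⊕ ι)) V}
    {τ : Representation ℝ (Perm ((Fin n × Bool) ⊕ ι)) W}
    {υ : Representation ℝ (Perm ((Fin n × Bool) ⊕ ι)) Z} (f : V →ₗ[ℝ] W) (g : W →ₗ[ℝ] Z)
    (hf : ∀ s v, f (ρ s v) = τ s (f v)) (hg : ∀ s v, g (τ s v) = υ s (g v)) :
    Function.Exact f g ↔ Function.Exact (fxMap f hf) (fxMap g hg) := by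
  constructor
  · intro h w
    constructor
    · intro hw
      obtain ⟨v, hv⟩ := (h w).1 (congrArg Subtype.val hw)
      refine ⟨⟨av ρ v, av_inv ρ v⟩, Subtype.ext ?_⟩
      rw [fxMap_coe]
      refine (av_map f hf v).trans ?_
      rw [hv]
      exact av_of_inv τ _ w.2
    · rintro ⟨v, rfl⟩
      exact Subtype.ext ((h _).2 ⟨v, rfl⟩)
  · intro h
    have h1 : LinearMap.range (g ∘ₗ f) ≤ ⊥ := by
      refine le_of_inv υ _ _ ?_ ?_ ?_
      · rintro s _ ⟨v, rfl⟩
        exact ⟨ρ s v, by rw [LinearMap.comp_apply, LinearMap.comp_apply, hf, hg]⟩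
      · intro s v hv
        rw [Submodule.mem_bot] at hv ⊢
        rw [hv, map_zero]
      · rintro _ ⟨v, rfl⟩ hv
        have h2 := (h (fxMap f hf ⟨av ρ v, av_inv ρ v⟩)).2 ⟨_, rfl⟩
        have h3 : g (f (av ρ v)) = 0 := congrArg Subtype.val h2
        rw [av_map f hf, av_map g hg] at h3
        have h4 := av_of_inv υ _ hv
        rw [LinearMap.comp_apply] at h4 ⊢
        rw [h4] at h3
        exact h3
    have h2 : LinearMap.ker g ≤ LinearMap.range f := by
      refine le_of_inv τ _ _ ?_ ?_ ?_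
      · intro s v hv
        rw [LinearMap.mem_ker] at hv ⊢
        rw [hg, hv, map_zero]
      · rintro s _ ⟨v, rfl⟩
        exact ⟨ρ s v, hf s v⟩
      · intro w hw hw2
        obtain ⟨v, hv⟩ := (h ⟨w, hw2⟩).1 (Subtype.ext hw)
        exact ⟨v, congrArg Subtype.val hv⟩
    intro w
    constructor
    · intro hw
      exact h2 hw
    · rintro ⟨v, rfl⟩
      exact (Submodule.mem_bot ℝ).1 (h1 ⟨v, rfl⟩)

end real

end Pool.Agent.Q56.SP
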