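import Mathlib

/-!
Highest weight vectors for representations of symmetric groups, by an elementary minimality
argument.
-/

set_option autoImplicit false

open Equiv Finset

namespace Pool.Agent.Q56.SP

variable {α : Type*} [Fintype α] [DecidableEq α]
variable {V : Type*} [AddCommGroup V] [Module ℚ V]

/-- `v` is invariant under the permutations which preserve the rows. -/
def RowInv (ρ : Representation ℚ (Perm α) V) (r : α → ℕ) (v : V) : Prop :=
  ∀ g : Perm α, (∀ x, r (g x) = r x) → ρ g v = v

/-- the Garnir relations -/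
def Low (ρ : Representation ℚ (Perm α) V) (r : α → ℕ) (v : V) : Prop :=
  ∀ x i, i < r x → v + ∑ y ∈ univ.filter (fun y => r y = i), ρ (swap x y) v = 0

/-- the permutations which preserve the rows -/
def Row (r : α → ℕ) : Finset (Perm α) := univ.filter fun p => ∀ x, r (p x) = r x

theorem mem_Row {r : α → ℕ} {p : Perm α} : p ∈ Row r ↔ ∀ x, r (p x) = r x := by simp [Row]

theorem rowInv_move (ρ : Representation ℚ (Perm α) V) (r : α → ℕ) (v : V) (h : RowInv ρ r v)
    (x : α) (i : ℕ) (hi : i ≠ r x) :
    RowInv ρ (Function.update r x i)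
      (v + ∑ y ∈ univ.filter (fun y => r y = i), ρ (swap x y) v) := by
  intro g hg
  set r' := Function.update r x i with hr'
  have hrx : r' x = i := by simp [hr']
  have hry : ∀ y, y ≠ x → r' y = r y := fun y hy => by simp [hr', hy]
  have hK : v + ∑ y ∈ univ.filter (fun y => r y = i), ρ (swap x y) v =
      ∑ y ∈ univ.filter (fun y => r' y = i), ρ (swap x y) v := by
    have h1 : univ.filter (fun y => r' y = i) = insert x (univ.filter (fun y => r y = i)) := by
      ext y
      by_cases hy : y = x
      · subst hy; simp [hrx]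
      · simp [hry y hy, hy]
    rw [h1, sum_insert (by simp [Ne.symm hi])]
    congr 1
    have h2 : swap x x = (1 : Perm α) := swap_self x
    rw [h2, map_one, Module.End.one_apply]
  rw [hK, map_sum]
  have h2 : ∀ y ∈ univ.filter (fun y => r' y = i), ρ g (ρ (swap x y) v) = ρ (swap x (g y)) v := by
    intro y hy
    have hy' : r' y = i := by simpa using hy
    have hgy : r' (g y) = i := by rw [hg, hy']
    have h3 : ρ (swap x (g y)) (ρ g (ρ (swap x y) v)) = v := by
      have h6 : ρ (swap x (g y)) (ρ g (ρ (swap x y) v)) = ρ (swap x (g y) * (g * swap x y)) v := by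
        rw [map_mul, map_mul]; rfl
      rw [h6]
      apply h
      have hk : ∀ z, r' ((swap x (g y) * (g * swap x y)) z) = r' z := by
        have hs : ∀ u, r' u = i → ∀ z, r' (swap x u z) = r' z := by
          intro u hu z
          rcases eq_or_ne z x with rfl | hzx
          · rw [swap_apply_left, hu, hrx]
          rcases eq_or_ne z u with rfl | hzu
          · rw [swap_apply_right, hu, hrx]
          · rw [swap_apply_of_ne_of_ne hzx hzu]
        intro z
        rw [Perm.mul_apply, Perm.mul_apply, hs _ hgy, hg, hs _ hy']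
      have hkx : (swap x (g y) * (g * swap x y)) x = x := by simp
      intro z
      by_cases hz : z = x
      · rw [hz, hkx]
      · have h4 : (swap x (g y) * (g * swap x y)) z ≠ x := by
          intro h5
          exact hz ((swap x (g y) * (g * swap x y)).injective (h5.trans hkx.symm))
        rw [← hry _ h4, hk, hry _ hz]
    have h5 : ρ (swap x (g y)) (ρ (swap x (g y)) (ρ g (ρ (swap x y) v))) = ρ (swap x (g y)) v := by
      rw [h3]
    rwa [← Module.End.mul_apply, ← map_mul, swap_mul_self, map_one, Module.End.one_apply] at h5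
  rw [sum_congr rfl h2]
  refine sum_bij' (fun y _ => g y) (fun y _ => g⁻¹ y) ?_ ?_ ?_ ?_ ?_
  · intro y hy
    have : r' y = i := by simpa using hy
    simp [hg, this]
  · intro y hy
    have hy' : r' y = i := by simpa using hy
    have : r' (g⁻¹ y) = r' y := by
      have := hg (g⁻¹ y)
      simpa using this.symm
    simp only [mem_filter, mem_univ, true_and]
    rw [this, hy']
  · intro y _; simp
  · intro y _; simp
  · intro y _; rfl

theorem sum_update (r : α → ℕ) (x : α) (i : ℕ) (hi : i < r x) :
    ∑ y, Function.update r x i y < ∑ y, r y := by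
  apply sum_lt_sum
  · intro y _
    by_cases hy : y = x
    · subst hy; simpa using hi.le
    · simp [hy]
  · exact ⟨x, mem_univ _, by simpa using hi⟩

/-- a row invariant vector for which the sum of the rows is minimal satisfies the Garnir
relations -/
theorem low_of_min (ρ : Representation ℚ (Perm α) V) (r : α → ℕ) (v : V) (h : RowInv ρ r v)
    (hmin : ∀ r' : α → ℕ, ∑ y, r' y < ∑ y, r y → ∀ w, RowInv ρ r' w → w = 0) : Low ρ r v :=
  fun x i hi => hmin _ (sum_update r x i hi) _ (rowInv_move ρ r v h x i hi.ne)

theorem exists_hw (ρ : Representation ℚ (Perm α) V) [Nontrivial V] :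
    ∃ (r : α → ℕ) (v : V), v ≠ 0 ∧ RowInv ρ r v ∧ Low ρ r v ∧
      ∀ i, (univ.filter fun y => r y = i + 1).card ≤ (univ.filter fun y => r y = i).card := by
  classical
  have hex : ∃ N : ℕ, ∃ (r : α → ℕ) (v : V), v ≠ 0 ∧ RowInv ρ r v ∧ ∑ y, r y = N := by
    obtain ⟨v, hv⟩ := exists_ne (0 : V)
    refine ⟨_, fun x => (Fintype.equivFin α x : ℕ), v, hv, ?_, rfl⟩
    intro g hg
    have : g = 1 := by
      ext x
      have := hg x
      simp only [Perm.coe_one, id_eq]
      exact (Fintype.equivFin α).injective (Fin.ext this)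
    rw [this, map_one, Module.End.one_apply]
  obtain ⟨r, v, hv, hinv, hsum⟩ := Nat.find_spec hex
  have hmin : ∀ r' : α → ℕ, ∑ y, r' y < ∑ y, r y → ∀ w, RowInv ρ r' w → w = 0 := by
    intro r' hr' w hw
    by_contra hw0
    exact Nat.find_min hex (hsum ▸ hr') ⟨r', w, hw0, hw, rfl⟩
  refine ⟨r, v, hv, hinv, low_of_min ρ r v hinv hmin, ?_⟩
  intro i
  by_contra hlt
  push Not at hlt
  let r' : α → ℕ := fun y => swap i (i + 1) (r y)
  have hinv' : RowInv ρ r' v := by
    intro g hg
    exact hinv g fun x => (swap i (i + 1)).injective (hg x)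
  have hs : ∑ y, r' y < ∑ y, r y := by
    have h1 : ∀ y, r' y + (if r y = i + 1 then 1 else 0) = r y + (if r y = i then 1 else 0) := by
      intro y
      by_cases h1 : r y = i
      · simp [r', h1]
      by_cases h2 : r y = i + 1
      · simp [r', h2]
      · simp [r', h1, h2, swap_apply_of_ne_of_ne]
    have h2 : ∑ y, r' y + (univ.filter fun y => r y = i + 1).card =
        ∑ y, r y + (univ.filter fun y => r y = i).card := by
      rw [card_filter, card_filter, ← sum_add_distrib, ← sum_add_distrib]
      exact sum_congr rfl fun y _ => h1 y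
    omega
  exact hv (hmin r' hs v hinv')

/-- the sum over the row group -/
noncomputable def rowSum (ρ : Representation ℚ (Perm α) V) (r : α → ℕ) (v : V) : V :=
  ∑ p ∈ Row r, ρ p v

theorem rowSum_mul (ρ : Representation ℚ (Perm α) V) (r : α → ℕ) (s : Perm α)
    (hs : ∀ x, r (s x) = r x) (v : V) : rowSum ρ r (ρ s v) = rowSum ρ r v := by
  unfold rowSum
  refine sum_bij' (fun p _ => p * s) (fun p _ => p * s⁻¹) ?_ ?_ ?_ ?_ ?_
  · intro p hp
    rw [mem_Row] at hp ⊢
    intro x
    rw [Perm.mul_apply, hp, hs]
  · intro p hp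
    rw [mem_Row] at hp ⊢
    intro x
    rw [Perm.mul_apply, hp]
    have := hs (s⁻¹ x)
    simpa using this.symm
  · intro p _; simp
  · intro p _; simp
  · intro p _
    rw [map_mul, Module.End.mul_apply]

/-- the multiplicity one property of highest weight vectors -/
theorem rowSum_eq (ρ : Representation ℚ (Perm α) V) (r : α → ℕ) (v : V) (h : RowInv ρ r v)
    (hl : Low ρ r v) : ∀ g : Perm α, ∃ c : ℚ, rowSum ρ r (ρ g v) = c • v := by
  classical
  suffices H : ∀ (D : ℕ) (g : Perm α), (univ.filter fun x => r (g x) ≠ r x).card = D →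
      ∃ c : ℚ, rowSum ρ r (ρ g v) = c • v from fun g => H _ g rfl
  intro D
  induction D using Nat.strong_induction_on with
  | _ D ih =>
  intro g hD
  by_cases h0 : ∀ x, r (g x) = r x
  · refine ⟨(Row r).card, ?_⟩
    rw [h g h0]
    unfold rowSum
    rw [sum_congr rfl fun p hp => h p (mem_Row.1 hp), sum_const, Nat.cast_smul_eq_nsmul]
  -- a point which is moved to a smaller row
  have hz : ∃ z, r (g z) < r z := by
    by_contra hcon
    push Not at hcon h0
    obtain ⟨x, hx⟩ := h0
    have h1 : ∑ y, r y < ∑ y, r (g y) :=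
      sum_lt_sum (fun y _ => hcon y) ⟨x, mem_univ _, lt_of_le_of_ne (hcon x) (Ne.symm hx)⟩
    rw [Equiv.sum_comp g r] at h1
    exact lt_irrefl _ h1
  obtain ⟨z, hz⟩ := hz
  set i := r (g z) with hi
  have hrel := hl z i hz
  have h1 : ρ g v = - ∑ y ∈ univ.filter (fun y => r y = i), ρ g (ρ (swap z y) v) := by
    rw [← map_sum (ρ g), ← map_neg (ρ g)]
    exact congrArg (ρ g) (eq_neg_of_add_eq_zero_left hrel)
  -- the terms with `g y` in the row `i`
  have h2 : ∀ y, r (g y) = i → rowSum ρ r (ρ g (ρ (swap z y) v)) = rowSum ρ r (ρ g v) := by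
    intro y hy
    have h3 : g * swap z y = swap (g z) (g y) * g := by
      rw [swap_mul_eq_mul_swap]
      simp
    rw [← Module.End.mul_apply, ← map_mul, h3, map_mul, Module.End.mul_apply]
    apply rowSum_mul
    intro x
    rcases eq_or_ne x (g z) with rfl | hx1
    · rw [swap_apply_left, hy]
    rcases eq_or_ne x (g y) with rfl | hx2
    · rw [swap_apply_right, hy]
    · rw [swap_apply_of_ne_of_ne hx1 hx2]
  have h4 : ∀ y, r y = i → r (g y) ≠ i →
      ∃ c : ℚ, rowSum ρ r (ρ g (ρ (swap z y) v)) = c • v := by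
    intro y hy hgy
    rw [← Module.End.mul_apply, ← map_mul]
    refine ih _ ?_ (g * swap z y) rfl
    rw [← hD]
    apply card_lt_card
    rw [ssubset_iff_of_subset]
    · refine ⟨y, ?_, ?_⟩
      · simp only [mem_filter, mem_univ, true_and]
        rw [hy]; exact hgy
      · simp only [mem_filter, mem_univ, true_and, not_not]
        rw [Perm.mul_apply, swap_apply_right, hy]
    · intro x hx
      simp only [mem_filter, mem_univ, true_and] at hx ⊢
      rw [Perm.mul_apply] at hx
      rcases eq_or_ne x z with rfl | hxz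
      · exact hz.ne
      rcases eq_or_ne x y with rfl | hxy
      · rw [hy]; exact hgy
      · rwa [swap_apply_of_ne_of_ne hxz hxy] at hx
  choose! c hc using h4
  set A := univ.filter (fun y => r y = i ∧ r (g y) = i) with hA
  set B := univ.filter (fun y => r y = i ∧ r (g y) ≠ i) with hB
  have h5 : rowSum ρ r (ρ g v) = -((A.card : ℚ) • rowSum ρ r (ρ g v) + (∑ y ∈ B, c y) • v) := by
    have hlin : ∀ (s : Finset α) (f : α → V), rowSum ρ r (- ∑ y ∈ s, f y)
        = - ∑ y ∈ s, rowSum ρ r (f y) := by
      intro s f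
      unfold rowSum
      simp only [map_neg, map_sum, sum_neg_distrib]
      rw [sum_comm]
    conv_lhs => rw [h1]
    rw [hlin]
    congr 1
    have h6 : univ.filter (fun y => r y = i) = A ∪ B := by
      ext y
      simp only [hA, hB, mem_filter, mem_univ, true_and, mem_union]
      tauto
    have h7 : Disjoint A B := by
      rw [disjoint_left]
      intro y hy1 hy2
      simp only [hA, hB, mem_filter, mem_univ, true_and] at hy1 hy2
      exact hy2.2 hy1.2
    rw [h6, sum_union h7]
    congr 1
    · rw [sum_congr rfl fun y hy => h2 y (mem_filter.1 hy).2.2, sum_const,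
        Nat.cast_smul_eq_nsmul]
    · rw [sum_smul]
      refine sum_congr rfl fun y hy => ?_
      have := (mem_filter.1 hy).2
      exact hc y this.1 this.2
  refine ⟨-(((1 : ℚ) + A.card)⁻¹ * ∑ y ∈ B, c y), ?_⟩
  have hpos : (0 : ℚ) < 1 + (A.card : ℚ) := by
    have := Nat.cast_nonneg (α := ℚ) A.card
    linarith
  have h8 : ((1 : ℚ) + A.card) • rowSum ρ r (ρ g v) = -((∑ y ∈ B, c y) • v) := by
    rw [add_smul, one_smul]
    nth_rewrite 1 [h5]
    rw [neg_add_rev, add_assoc, neg_add_cancel, add_zero]
  have h9 : rowSum ρ r (ρ g v) = ((1 : ℚ) + A.card)⁻¹ • -((∑ y ∈ B, c y) • v) := by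
    rw [← h8, smul_smul, inv_mul_cancel₀ hpos.ne', one_smul]
  rw [h9, smul_neg, smul_smul, neg_smul]

end Pool.Agent.Q56.SP
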