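import Pool.Agent.Q56.SP.Model

/-!
The involution model: every nonzero representation of a symmetric group contains, for some
involution `θ`, a nonzero vector on which the centralizer of `θ` acts by the sign of the restriction
to the support of `θ`.
-/

set_option autoImplicit false
set_option linter.unusedSectionVars false

open Equiv Finset

namespace Pool.Agent.Q56.SP

variable {α : Type*} [Fintype α] [DecidableEq α]

/-- the sign of the restriction of `h` to the support of `θ`, if `h` preserves the support -/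
def chi (θ h : Perm α) : ℤˣ :=
  if H : ∀ x, (θ (h x) ≠ h x ↔ θ x ≠ x) then Perm.sign (Perm.subtypePerm (p := fun x => θ x ≠ x) h H) else 1

theorem supp_iff {θ h : Perm α} (hc : ∀ x, θ (h x) = h (θ x)) (x : α) :
    θ (h x) ≠ h x ↔ θ x ≠ x := by
  rw [hc]
  exact not_congr h.injective.eq_iff

theorem chi_eq {θ h : Perm α} (hc : ∀ x, θ (h x) = h (θ x)) :
    chi θ h = Perm.sign (Perm.subtypePerm (p := fun x => θ x ≠ x) h (supp_iff hc)) := by
  unfold chi
  rw [dif_pos (supp_iff hc)]

theorem comm_mul {θ h k : Perm α} (hc : ∀ x, θ (h x) = h (θ x)) (kc : ∀ x, θ (k x) = k (θ x)) :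
    ∀ x, θ ((h * k) x) = (h * k) (θ x) := by
  intro x
  rw [Perm.mul_apply, Perm.mul_apply, hc, kc]

theorem comm_inv {θ h : Perm α} (hc : ∀ x, θ (h x) = h (θ x)) :
    ∀ x, θ (h⁻¹ x) = h⁻¹ (θ x) := by
  intro x
  have h1 := hc (h⁻¹ x)
  have h2 : h (h⁻¹ x) = x := by simp
  rw [h2] at h1
  rw [h1]
  simp

theorem chi_mul {θ h k : Perm α} (hc : ∀ x, θ (h x) = h (θ x)) (kc : ∀ x, θ (k x) = k (θ x)) :
    chi θ (h * k) = chi θ h * chi θ k := by
  rw [chi_eq hc, chi_eq kc, chi_eq (comm_mul hc kc), ← Perm.sign_mul, Perm.subtypePerm_mul]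

theorem chi_one (θ : Perm α) : chi θ 1 = 1 := by
  rw [chi_eq (θ := θ) (h := 1) (fun x => rfl)]
  simp

theorem chi_sq (θ h : Perm α) : chi θ h * chi θ h = 1 := by
  rcases Int.units_eq_one_or (chi θ h) with h1 | h1 <;> rw [h1] <;> simp

theorem chi_inv {θ h : Perm α} (hc : ∀ x, θ (h x) = h (θ x)) : chi θ h⁻¹ = chi θ h := by
  have h1 := chi_mul hc (comm_inv hc)
  rw [mul_inv_cancel, chi_one] at h1
  have h2 := chi_sq θ h
  exact (mul_left_cancel (h2.trans h1)).symm

/-- a permutation which commutes with an involution and preserves a set that is mapped to its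
complement by the involution is even -/
theorem sign_eq_one {β : Type*} [Fintype β] [DecidableEq β] (π θ : Perm β) (E : β → Prop)
    [DecidablePred E] (hθ : ∀ x, θ (θ x) = x) (hE : ∀ x, E (θ x) ↔ ¬ E x)
    (hπ : ∀ x, E (π x) ↔ E x) (hc : ∀ x, π (θ x) = θ (π x)) : Perm.sign π = 1 := by
  classical
  let e : {x // E x} ⊕ {x // E x} ≃ β :=
    { toFun := Sum.elim (fun x => x.1) (fun x => θ x.1)
      invFun := fun x => if h : E x then Sum.inl ⟨x, h⟩ else Sum.inr ⟨θ x, (hE x).2 h⟩
      left_inv := by
        rintro (⟨x, hx⟩ | ⟨x, hx⟩)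
        · simp [hx]
        · have h1 : ¬ E (θ x) := fun h => (hE x).1 h hx
          simp [h1, hθ]
      right_inv := by
        intro x
        by_cases h : E x
        · simp [h]
        · simp [h, hθ] }
  have h1 := Perm.sign_eq_sign_of_equiv (Perm.sumCongr (Perm.subtypePerm π hπ)
    (Perm.subtypePerm π hπ)) π e (by
      rintro (⟨x, hx⟩ | ⟨x, hx⟩)
      · rfl
      · exact (hc x).symm)
  rw [← h1, Perm.sign_sumCongr]
  rcases Int.units_eq_one_or (Perm.sign (Perm.subtypePerm π hπ)) with h2 | h2 <;> rw [h2] <;> simp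

/-- the involution which exchanges the cells in the rows `2 i` and `2 i + 1` of a column -/
structure Dom (r c : α → ℕ) (θ : Perm α) : Prop where
  invol : ∀ x, θ (θ x) = x
  col : ∀ x, c (θ x) = c x
  odd : ∀ x, Odd (r x) → r (θ x) + 1 = r x
  even : ∀ x, Even (r x) → θ x = x ∨ r (θ x) = r x + 1
  last : ∀ x, Even (r x) → θ x = x → ∀ y, c y = c x → r y ≠ r x + 1

theorem exists_dom {r c : α → ℕ} (T : Tab r c) : ∃ θ : Perm α, Dom r c θ := by
  classical
  have h1 : ∀ x, ∃ y, c y = c x ∧ (Odd (r x) → r y + 1 = r x) ∧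
      (Even (r x) → (r y = r x + 1 ∨ (y = x ∧ ∀ z, c z = c x → r z ≠ r x + 1))) := by
    intro x
    rcases Nat.even_or_odd (r x) with he | ho
    · by_cases h : ∃ y, c y = c x ∧ r y = r x + 1
      · obtain ⟨y, hy1, hy2⟩ := h
        exact ⟨y, hy1, fun ho => absurd he (Nat.not_even_iff_odd.2 ho), fun _ => Or.inl hy2⟩
      · push Not at h
        exact ⟨x, rfl, fun ho => absurd he (Nat.not_even_iff_odd.2 ho), fun _ => Or.inr ⟨rfl, h⟩⟩
    · obtain ⟨k, hk⟩ := ho
      obtain ⟨y, hy1, hy2⟩ := T.down x (2 * k) (by omega)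
      refine ⟨y, hy2, fun _ => by omega, fun he => ?_⟩
      exact absurd he (Nat.not_even_iff_odd.2 ⟨k, hk⟩)
  choose f hf1 hf2 hf3 using h1
  have hinv : Function.Involutive f := by
    intro x
    rcases Nat.even_or_odd (r x) with he | ho
    · rcases hf3 x he with h | ⟨h, h'⟩
      · have ho' : Odd (r (f x)) := by rw [h]; exact he.add_one
        apply T.inj
        · have := hf2 (f x) ho'
          omega
        · rw [hf1, hf1]
      · rw [h, h]
    · have h := hf2 x ho
      have he' : Even (r (f x)) := by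
        rw [← h] at ho
        by_contra hne
        exact (Nat.not_even_iff_odd.2 ho) ((Nat.not_even_iff_odd.1 hne).add_one)
      rcases hf3 (f x) he' with h3 | ⟨h3, h4⟩
      · apply T.inj
        · omega
        · rw [hf1, hf1]
      · exact absurd h.symm (h4 x (hf1 x).symm)
  refine ⟨hinv.toPerm f, hinv, hf1, hf2, ?_, ?_⟩
  · intro x he
    rcases hf3 x he with h | ⟨h, _⟩
    · exact Or.inr h
    · exact Or.inl h
  · intro x he hx y hy
    rcases hf3 x he with h | ⟨_, h⟩
    · exfalso
      have hx' : f x = x := hx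
      rw [hx'] at h
      omega
    · exact h y hy

theorem Dom.odd_supp {r c : α → ℕ} {θ : Perm α} (h : Dom r c θ) {x : α} (hx : Odd (r x)) :
    θ x ≠ x := by
  intro he
  have := h.odd x hx
  rw [he] at this
  omega

/-- the last cells of the columns of odd length are fixed -/
theorem Dom.uniq {r c : α → ℕ} (T : Tab r c) {θ : Perm α} (h : Dom r c θ) {x y : α}
    (hx : θ x = x) (hy : θ y = y) (hc : c x = c y) : x = y := by
  have hex : Even (r x) := by
    by_contra ho
    exact h.odd_supp (Nat.not_even_iff_odd.1 ho) hx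
  have hey : Even (r y) := by
    by_contra ho
    exact h.odd_supp (Nat.not_even_iff_odd.1 ho) hy
  have key : ∀ {x y : α}, Even (r x) → θ x = x → c x = c y → ¬ r x < r y := by
    intro x y hex hx hc hlt
    obtain ⟨z, hz1, hz2⟩ := T.down y (r x + 1) (by omega)
    exact h.last x hex hx z (hz2.trans hc.symm) hz1
  have h1 := key hex hx hc
  have h2 := key hey hy hc.symm
  exact T.inj x y (by omega) hc

/-- the key sign computation -/
theorem sign_col {r c : α → ℕ} (T : Tab r c) {θ : Perm α} (h : Dom r c θ) {p q : Perm α}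
    (hp : ∀ x, r (p x) = r x) (hq : ∀ x, c (q x) = c x)
    (hc : ∀ x, θ ((p * q) x) = (p * q) (θ x)) : Perm.sign q = chi θ (p * q) := by
  classical
  have hr : ∀ x, r (q x) = r ((p * q) x) := fun x => (hp (q x)).symm
  have hsupp := supp_iff hc
  -- `q` commutes with `θ` on the support
  have h1 : ∀ x, θ x ≠ x → θ (q x) = q (θ x) := by
    intro x hx
    have hx' := (hsupp x).2 hx
    rcases Nat.even_or_odd (r ((p * q) x)) with he | ho
    · have h2 := (h.even _ he).resolve_left hx'
      have h3 : r (q (θ x)) = r (q x) + 1 := by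
        rw [hr, hr, ← hc, h2]
      have ho : Odd (r (q (θ x))) := by
        rw [h3, hr]; exact he.add_one
      have h4 := h.odd _ ho
      have h5 : θ (q (θ x)) = q x := by
        apply T.inj
        · omega
        · rw [h.col, hq, hq, h.col]
      rw [← h5, h.invol]
    · apply T.inj
      · have h2 := h.odd _ ho
        have h3 := h.odd (q x) (by rw [hr]; exact ho)
        have h4 : r (q (θ x)) = r (θ ((p * q) x)) := by rw [hr, hc]
        have h5 := hr x
        omega
      · rw [h.col, hq, hq, h.col]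
  have h2 : ∀ x, θ x ≠ x → θ (q x) ≠ q x := by
    intro x hx he
    rw [h1 x hx] at he
    exact hx (q.injective he)
  have h3 : ∀ x, θ (q x) ≠ q x ↔ θ x ≠ x := by
    let S : Finset α := univ.filter fun x => θ x ≠ x
    have hS : S.image q ⊆ S := by
      intro y hy
      obtain ⟨x, hx, rfl⟩ := mem_image.1 hy
      simp only [S, mem_filter, mem_univ, true_and] at hx ⊢
      exact h2 x hx
    have hS2 : S.image q = S :=
      eq_of_subset_of_card_le hS (by rw [card_image_of_injective _ q.injective])
    intro x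
    refine ⟨fun hx => ?_, h2 x⟩
    have : q x ∈ S.image q := by rw [hS2]; simp [S, hx]
    obtain ⟨y, hy, hyx⟩ := mem_image.1 this
    rw [q.injective hyx] at hy
    simpa [S] using hy
  -- `q` fixes the points outside of the support
  have h4 : ∀ x, q x ≠ x → θ x ≠ x := by
    intro x hx he
    have h5 : θ (q x) = q x := by
      by_contra hcon
      exact (h3 x).1 hcon he
    exact hx (h.uniq T h5 he (hq x))
  -- `p` on the support
  have h5 : ∀ x, θ (p x) ≠ p x ↔ θ x ≠ x := by
    intro x
    have h6 : q (q⁻¹ x) = x := by simp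
    have h7 := hsupp (q⁻¹ x)
    have h8 := h3 (q⁻¹ x)
    rw [Perm.mul_apply, h6] at h7
    rw [h6] at h8
    rw [h7, h8]
  rw [chi_eq hc, ← Perm.sign_subtypePerm (p := fun x => θ x ≠ x) q h3 h4]
  have h6 : Perm.subtypePerm (p := fun x => θ x ≠ x) (p * q) hsupp =
      Perm.subtypePerm (p := fun x => θ x ≠ x) p h5 *
        Perm.subtypePerm (p := fun x => θ x ≠ x) q h3 := by
    rw [Perm.subtypePerm_mul]
  rw [h6, Perm.sign_mul]
  have h7 : Perm.sign (Perm.subtypePerm (p := fun x => θ x ≠ x) p h5) = 1 := by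
    have hθ : ∀ x, θ (θ x) ≠ θ x ↔ θ x ≠ x := fun x => supp_iff (fun _ => rfl) x
    refine sign_eq_one (Perm.subtypePerm (p := fun x => θ x ≠ x) p h5)
      (Perm.subtypePerm (p := fun x => θ x ≠ x) θ hθ)
      (fun x => Even (r x.1)) (fun x => Subtype.ext (h.invol x.1)) ?_ ?_ ?_
    · rintro ⟨x, hx⟩
      change Even (r (θ x)) ↔ ¬ Even (r x)
      rcases Nat.even_or_odd (r x) with he | ho
      · have := (h.even x he).resolve_left hx
        rw [this]
        constructor
        · intro h8; exact absurd he.add_one (Nat.not_odd_iff_even.2 h8)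
        · intro h8; exact absurd he h8
      · have := h.odd x ho
        constructor
        · intro _; exact Nat.not_even_iff_odd.2 ho
        · intro _
          by_contra h9
          rw [← this] at ho
          exact (Nat.not_even_iff_odd.2 ho) ((Nat.not_even_iff_odd.1 h9).add_one)
    · rintro ⟨x, hx⟩
      change Even (r (p x)) ↔ Even (r x)
      rw [hp]
    · rintro ⟨x, hx⟩
      apply Subtype.ext
      change p (θ x) = θ (p x)
      have h8 : q (q⁻¹ x) = x := by simp
      have h9 : θ (q⁻¹ x) ≠ q⁻¹ x := by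
        rw [← h3, h8]; exact hx
      have h10 := h1 _ h9
      rw [h8] at h10
      rw [h10]
      have h11 := hc (q⁻¹ x)
      rw [Perm.mul_apply, Perm.mul_apply, h8] at h11
      exact h11.symm
  rw [h7, one_mul]

end Pool.Agent.Q56.SP
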