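import Pool.Agent.Q56.SP.Inv

/-!
The involution model for the representations of the symmetric groups.
-/

set_option autoImplicit false
set_option linter.unusedSectionVars false

open Equiv Finset

namespace Pool.Agent.Q56.SP

variable {α : Type*} [Fintype α] [DecidableEq α]

/-- the centralizer -/
def Cen (θ : Perm α) : Finset (Perm α) := univ.filter fun h => ∀ x, θ (h x) = h (θ x)

theorem mem_Cen {θ h : Perm α} : h ∈ Cen θ ↔ ∀ x, θ (h x) = h (θ x) := by simp [Cen]

/-- the twisted average over the centralizer -/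
noncomputable def pr {V : Type*} [AddCommGroup V] [Module ℚ V] (ρ : Representation ℚ (Perm α) V)
    (θ : Perm α) (u : V) : V := ∑ h ∈ Cen θ, ((chi θ h : ℤ) : ℚ) • ρ h u

theorem rho_pr {V : Type*} [AddCommGroup V] [Module ℚ V] (ρ : Representation ℚ (Perm α) V)
    (θ : Perm α) (u : V) {k : Perm α} (hk : ∀ x, θ (k x) = k (θ x)) :
    ρ k (pr ρ θ u) = ((chi θ k : ℤ) : ℚ) • pr ρ θ u := by
  unfold pr
  rw [map_sum, smul_sum]
  refine sum_bij' (fun h _ => k * h) (fun h _ => k⁻¹ * h) ?_ ?_ ?_ ?_ ?_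
  · intro h hh
    rw [mem_Cen] at hh ⊢
    exact comm_mul hk hh
  · intro h hh
    rw [mem_Cen] at hh ⊢
    exact comm_mul (comm_inv hk) hh
  · intro h _; simp
  · intro h _; simp
  · intro h hh
    rw [mem_Cen] at hh
    rw [map_smul, map_mul, Module.End.mul_apply, chi_mul hk hh, smul_smul]
    congr 1
    have h2 : ((chi θ k : ℤ) : ℚ) * ((chi θ k : ℤ) : ℚ) = 1 := by
      have := chi_sq θ k
      have h3 := congrArg (fun u : ℤˣ => (u : ℤ)) this
      simp only [Units.val_mul, Units.val_one] at h3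
      exact_mod_cast h3
    rw [Units.val_mul]
    push_cast
    linear_combination (-((chi θ h : ℤ) : ℚ)) * h2

/-- the standard scalar product -/
def ip (φ ψ : Perm α → ℚ) : ℚ := ∑ x, φ x * ψ x

theorem ip_mrep (g : Perm α) (φ ψ : Perm α → ℚ) : ip (mrep g φ) ψ = ip φ (mrep g⁻¹ ψ) := by
  unfold ip
  rw [← Equiv.sum_comp (Equiv.mulLeft g)]
  refine sum_congr rfl fun x _ => ?_
  rw [mrep_apply, mrep_apply, Equiv.coe_mulLeft, inv_inv, inv_mul_cancel_left]

theorem rowSum_pr {W : Type*} [AddCommGroup W] [Module ℚ W] (σ : Representation ℚ (Perm α) W)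
    (r : α → ℕ) (θ : Perm α) (u : W) :
    rowSum σ r (pr σ θ u) = ∑ h ∈ Cen θ, ((chi θ h : ℤ) : ℚ) • rowSum σ r (σ h u) := by
  unfold rowSum pr
  simp only [map_sum, map_smul, smul_sum]
  rw [sum_comm]

theorem exists_model {V : Type*} [AddCommGroup V] [Module ℚ V]
    (ρ : Representation ℚ (Perm α) V) [Nontrivial V] :
    ∃ θ : Perm α, (∀ x, θ (θ x) = x) ∧ ∃ w : V, w ≠ 0 ∧
      ∀ h : Perm α, (∀ x, θ (h x) = h (θ x)) → ρ h w = ((chi θ h : ℤ) : ℚ) • w := by
  classical
  obtain ⟨r, v, hv, hinv, hlow, hcard⟩ := exists_hw ρ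
  obtain ⟨c, T⟩ := exists_col r hcard
  obtain ⟨θ, hθ⟩ := exists_dom T
  refine ⟨θ, hθ.invol, pr ρ θ v, ?_, fun h hh => rho_pr ρ θ v hh⟩
  intro hw
  have hinv' : RowInv (ρ.prod mrep) r (v, phi r c) := by
    intro g hg
    exact Prod.ext (hinv g hg) (phi_inv r c g hg)
  have hlow' : Low (ρ.prod mrep) r (v, phi r c) := by
    intro x i hi
    have h1 := hlow x i hi
    have h2 := phi_low T x i hi
    have h3 : (v, phi r c) + ∑ y ∈ univ.filter (fun y => r y = i),
        (ρ.prod mrep) (swap x y) (v, phi r c) =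
        (v + ∑ y ∈ univ.filter (fun y => r y = i), ρ (swap x y) v,
          phi r c + ∑ y ∈ univ.filter (fun y => r y = i), mrep (swap x y) (phi r c)) := by
      refine Prod.ext ?_ ?_
      · rw [Prod.fst_add, Prod.fst_sum]; rfl
      · rw [Prod.snd_add, Prod.snd_sum]; rfl
    rw [h3, h1, h2]; rfl
  have hU := rowSum_eq (ρ.prod mrep) r (v, phi r c) hinv' hlow'
  choose k hk using hU
  have hk1 : ∀ g, rowSum ρ r (ρ g v) = k g • v := by
    intro g
    have := congrArg Prod.fst (hk g)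
    unfold rowSum at this
    rw [Prod.fst_sum] at this
    exact this
  have hk2 : ∀ g, rowSum mrep r (mrep g (phi r c)) = k g • phi r c := by
    intro g
    have := congrArg Prod.snd (hk g)
    unfold rowSum at this
    rw [Prod.snd_sum] at this
    exact this
  have hK : (∑ h ∈ Cen θ, ((chi θ h : ℤ) : ℚ) * k h) = 0 := by
    have h1 := rowSum_pr ρ r θ v
    rw [hw] at h1
    have h2 : rowSum ρ r (0 : V) = 0 := by
      unfold rowSum
      simp
    rw [h2] at h1
    simp only [hk1, smul_smul] at h1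
    rw [← sum_smul] at h1
    exact (smul_eq_zero.1 h1.symm).resolve_right hv
  set w₀ := pr mrep θ (phi r c) with hw₀
  have h0 : rowSum mrep r w₀ = 0 := by
    rw [hw₀, rowSum_pr]
    simp only [hk2, smul_smul]
    rw [← sum_smul, hK, zero_smul]
  have ip_sum : ∀ (s : Finset (Perm α)) (f : Perm α → Perm α → ℚ) (ψ : Perm α → ℚ),
      ip (∑ i ∈ s, f i) ψ = ∑ i ∈ s, ip (f i) ψ := by
    intro s f ψ
    unfold ip
    rw [sum_comm]
    refine sum_congr rfl fun x _ => ?_
    rw [Finset.sum_apply, sum_mul]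
  have ip_sum' : ∀ (s : Finset (Perm α)) (f : Perm α → Perm α → ℚ) (ψ : Perm α → ℚ),
      ip ψ (∑ i ∈ s, f i) = ∑ i ∈ s, ip ψ (f i) := by
    intro s f ψ
    unfold ip
    rw [sum_comm]
    refine sum_congr rfl fun x _ => ?_
    rw [Finset.sum_apply, mul_sum]
  have ip_smul : ∀ (a : ℚ) (φ ψ : Perm α → ℚ), ip (a • φ) ψ = a * ip φ ψ := by
    intro a φ ψ
    unfold ip
    rw [mul_sum]
    refine sum_congr rfl fun x _ => ?_
    rw [Pi.smul_apply, smul_eq_mul]; ring
  have ip_smul' : ∀ (a : ℚ) (φ ψ : Perm α → ℚ), ip φ (a • ψ) = a * ip φ ψ := by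
    intro a φ ψ
    unfold ip
    rw [mul_sum]
    refine sum_congr rfl fun x _ => ?_
    rw [Pi.smul_apply, smul_eq_mul]; ring
  have h1 : ip w₀ (phi r c) = 0 := by
    have h2 : ip (rowSum mrep r w₀) (phi r c) = (Row r).card * ip w₀ (phi r c) := by
      unfold rowSum
      rw [ip_sum]
      have h3 : ∀ p ∈ Row r, ip (mrep p w₀) (phi r c) = ip w₀ (phi r c) := by
        intro p hp
        rw [mem_Row] at hp
        rw [ip_mrep, phi_inv r c p⁻¹]
        intro x
        have h4 := hp (p⁻¹ x)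
        have h5 : p (p⁻¹ x) = x := by simp
        rw [h5] at h4
        exact h4.symm
      rw [sum_congr rfl h3, sum_const, nsmul_eq_mul]
    rw [h0] at h2
    have h3 : ip (0 : Perm α → ℚ) (phi r c) = 0 := by simp [ip]
    rw [h3] at h2
    have h4 : ((Row r).card : ℚ) ≠ 0 := by
      have : (1 : Perm α) ∈ Row r := by rw [mem_Row]; intro x; rfl
      exact_mod_cast (card_pos.2 ⟨1, this⟩).ne'
    exact (mul_eq_zero.1 h2.symm).resolve_left h4
  have h2 : ip w₀ w₀ = 0 := by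
    have e1 := ip_sum (Cen θ) (fun h => ((chi θ h : ℤ) : ℚ) • mrep h (phi r c)) w₀
    rw [show (∑ h ∈ Cen θ, ((chi θ h : ℤ) : ℚ) • mrep h (phi r c)) = w₀ from rfl] at e1
    rw [e1]
    refine sum_eq_zero fun h hh => ?_
    rw [mem_Cen] at hh
    have h3 : ip (phi r c) w₀ = 0 := by
      rw [← h1]; unfold ip
      exact sum_congr rfl fun x _ => mul_comm _ _
    have e2 : mrep h⁻¹ w₀ = ((chi θ h⁻¹ : ℤ) : ℚ) • w₀ := rho_pr mrep θ (phi r c) (comm_inv hh)
    rw [ip_smul, ip_mrep, e2, ip_smul', h3]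
    simp
  have h3 : w₀ 1 = 0 := by
    unfold ip at h2
    have h4 := (sum_eq_zero_iff_of_nonneg (fun x _ => mul_self_nonneg (w₀ x))).1 h2 1 (mem_univ _)
    exact mul_self_eq_zero.1 h4
  have h4 : w₀ 1 = ∑ h ∈ Cen θ, ∑ p ∈ Row r, ((chi θ h : ℤ) : ℚ) * psi c (p⁻¹ * h⁻¹) := by
    rw [hw₀]
    unfold pr
    rw [Finset.sum_apply]
    refine sum_congr rfl fun h _ => ?_
    rw [Pi.smul_apply, smul_eq_mul, mrep_apply, mul_one]
    unfold phi rowSum
    rw [Finset.sum_apply, mul_sum]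
    rfl
  have h5 : ∀ h ∈ Cen θ, ∀ p ∈ Row r, 0 ≤ ((chi θ h : ℤ) : ℚ) * psi c (p⁻¹ * h⁻¹) := by
    intro h hh p hp
    rw [mem_Cen] at hh
    rw [mem_Row] at hp
    unfold psi
    split_ifs with hq
    · have e1 : p * (p⁻¹ * h⁻¹) = h⁻¹ := by simp
      have e2 := sign_col T hθ hp hq (by rw [e1]; exact comm_inv hh)
      rw [e2, e1, chi_inv hh]
      exact mul_self_nonneg _
    · rw [mul_zero]
  have h6 : (0 : ℚ) < w₀ 1 := by
    rw [h4]
    refine sum_pos' (fun h hh => sum_nonneg fun p hp => h5 h hh p hp) ⟨1, ?_, ?_⟩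
    · rw [mem_Cen]; intro x; rfl
    · refine sum_pos' (fun p hp => h5 1 (by rw [mem_Cen]; intro x; rfl) p hp) ⟨1, ?_, ?_⟩
      · rw [mem_Row]; intro x; rfl
      · rw [chi_one]
        unfold psi
        simp
  rw [h3] at h6
  exact lt_irrefl _ h6

end Pool.Agent.Q56.SP
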