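import Pool.Agent.Q56.SP.HW

/-!
The Young symmetrizer as a function on the symmetric group: it is a highest weight vector.
-/

set_option autoImplicit false

open Equiv Finset

namespace Pool.Agent.Q56.SP

set_option linter.unusedSectionVars false

variable {α : Type*} [Fintype α] [DecidableEq α]

/-- `r` and `c` are the rows and columns of a numbering of a Young diagram by `α` (only the part of
the conditions which is needed) -/
structure Tab (r c : α → ℕ) : Prop where
  inj : ∀ x y, r x = r y → c x = c y → x = y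
  down : ∀ y i, i ≤ r y → ∃ x, r x = i ∧ c x = c y

theorem exists_col (r : α → ℕ)
    (h : ∀ i, (univ.filter fun y => r y = i + 1).card ≤ (univ.filter fun y => r y = i).card) :
    ∃ c : α → ℕ, Tab r c := by
  classical
  let μ : ℕ → ℕ := fun i => Fintype.card {y // r y = i}
  have hμ : ∀ i, μ i = (univ.filter fun y => r y = i).card := fun i => Fintype.card_subtype _
  have hanti : Antitone μ := antitone_nat_of_succ_le fun i => by rw [hμ, hμ]; exact h i
  let e : ∀ i, {y // r y = i} ≃ Fin (μ i) := fun i => Fintype.equivFin _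
  refine ⟨fun y => (e (r y) ⟨y, rfl⟩ : ℕ), ?_, ?_⟩
  · intro x y hr hc
    have key : ∀ i (hx : r x = i) (hy : r y = i), (e i ⟨x, hx⟩ : ℕ) = (e i ⟨y, hy⟩ : ℕ) → x = y := by
      intro i hx hy he
      have := (e i).injective (Fin.ext he)
      exact congrArg Subtype.val this
    have h2 : ∀ i (hi : r x = i), (e (r x) ⟨x, rfl⟩ : ℕ) = (e i ⟨x, hi⟩ : ℕ) := by
      intro i hi
      subst hi
      rfl
    exact key (r y) hr rfl ((h2 _ hr).symm.trans hc)
  · intro y i hi
    have hk : (e (r y) ⟨y, rfl⟩ : ℕ) < μ i := lt_of_lt_of_le (e (r y) ⟨y, rfl⟩).2 (hanti hi)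
    obtain ⟨⟨x, hx⟩, hex⟩ := (e i).surjective ⟨_, hk⟩
    refine ⟨x, hx, ?_⟩
    subst hx
    have := congrArg Fin.val hex
    exact this

theorem sum_range_card_le (s : Finset ℕ) : ∑ i ∈ range s.card, i ≤ ∑ i ∈ s, i := by
  induction hn : s.card generalizing s with
  | zero => simp
  | succ n ih =>
    have hne : s.Nonempty := card_pos.1 (by omega)
    set m := s.max' hne
    have hm : m ∈ s := s.max'_mem hne
    have h1 : (s.erase m).card = n := by rw [card_erase_of_mem hm, hn]; rfl
    have h2 := ih (s.erase m) h1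
    have h3 : n ≤ m := by
      have : s ⊆ range (m + 1) := fun a ha => mem_range.2 (Nat.lt_succ_of_le (s.le_max' a ha))
      have := card_le_card this
      rw [card_range, hn] at this
      omega
    rw [sum_range_succ, ← sum_erase_add _ _ hm]
    omega

theorem eq_range_card (s : Finset ℕ) (h : ∀ a ∈ s, ∀ b ≤ a, b ∈ s) : s = range s.card := by
  have h1 : s ⊆ range s.card := by
    intro a ha
    rw [mem_range]
    have : range (a + 1) ⊆ s := fun b hb => h a ha b (Nat.lt_succ_iff.1 (mem_range.1 hb))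
    have := card_le_card this
    rw [card_range] at this
    omega
  exact eq_of_subset_of_card_le h1 (by rw [card_range])

/-- the pigeonhole principle behind the dominance order -/
theorem exists_pair {r c : α → ℕ} (T : Tab r c) (r' : α → ℕ) (h : ∑ y, r' y < ∑ y, r y)
    (g : Perm α) : ∃ y₁ y₂, y₁ ≠ y₂ ∧ r' y₁ = r' y₂ ∧ c (g⁻¹ y₁) = c (g⁻¹ y₂) := by
  classical
  by_contra hcon
  push Not at hcon
  set I := univ.image c
  have hA : ∑ y, r' y = ∑ k ∈ I, ∑ y ∈ univ.filter (fun y => c (g⁻¹ y) = k), r' y :=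
    (sum_fiberwise_of_maps_to (fun y _ => mem_image_of_mem c (mem_univ (g⁻¹ y))) r').symm
  have hB : ∑ y, r y = ∑ k ∈ I, ∑ y ∈ univ.filter (fun y => c y = k), r y :=
    (sum_fiberwise_of_maps_to (fun y _ => mem_image_of_mem c (mem_univ y)) r).symm
  have hcard : ∀ k, (univ.filter (fun y => c (g⁻¹ y) = k)).card = (univ.filter (fun y => c y = k)).card := by
    intro k
    refine card_bij' (fun y _ => g⁻¹ y) (fun y _ => g y) ?_ ?_ ?_ ?_
    · intro y hy
      simpa using hy
    · intro y hy
      simpa using hy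
    · intro y _; simp
    · intro y _; simp
  have h1 : ∀ k, ∑ i ∈ range (univ.filter (fun y => c y = k)).card, i ≤
      ∑ y ∈ univ.filter (fun y => c (g⁻¹ y) = k), r' y := by
    intro k
    have hinj : Set.InjOn r' (univ.filter (fun y => c (g⁻¹ y) = k) : Finset α) := by
      intro y₁ hy₁ y₂ hy₂ he
      by_contra hne
      have e1 : c (g⁻¹ y₁) = k := by simpa using hy₁
      have e2 : c (g⁻¹ y₂) = k := by simpa using hy₂
      exact hcon y₁ y₂ hne he (e1.trans e2.symm)
    rw [← hcard, ← card_image_of_injOn hinj]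
    refine (sum_range_card_le _).trans ?_
    rw [sum_image hinj]
  have h2 : ∀ k, ∑ y ∈ univ.filter (fun y => c y = k), r y =
      ∑ i ∈ range (univ.filter (fun y => c y = k)).card, i := by
    intro k
    have hinj : Set.InjOn r (univ.filter (fun y => c y = k) : Finset α) := by
      intro y₁ hy₁ y₂ hy₂ he
      have e1 : c y₁ = k := by simpa using hy₁
      have e2 : c y₂ = k := by simpa using hy₂
      exact T.inj _ _ he (e1.trans e2.symm)
    rw [← card_image_of_injOn hinj, ← eq_range_card, sum_image hinj]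
    intro a ha b hb
    obtain ⟨y, hy, rfl⟩ := mem_image.1 ha
    obtain ⟨x, hx1, hx2⟩ := T.down y b hb
    refine mem_image.2 ⟨x, ?_, hx1⟩
    have hy' : c y = k := by simpa using hy
    simp [hx2, hy']
  have h3 : ∑ y, r y ≤ ∑ y, r' y := by
    rw [hA, hB]
    exact sum_le_sum fun k _ => (h2 k).le.trans (h1 k)
  omega

/-- left translations of functions on the symmetric group -/
def mrep : Representation ℚ (Perm α) (Perm α → ℚ) where
  toFun g :=
    { toFun := fun φ x => φ (g⁻¹ * x)
      map_add' := fun _ _ => rfl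
      map_smul' := fun _ _ => rfl }
  map_one' := by
    ext φ x
    simp
  map_mul' g h := by
    refine LinearMap.ext fun φ => funext fun x => ?_
    change φ ((g * h)⁻¹ * x) = φ (h⁻¹ * (g⁻¹ * x))
    rw [mul_inv_rev, mul_assoc]

theorem mrep_apply (g : Perm α) (φ : Perm α → ℚ) (x : Perm α) : mrep g φ x = φ (g⁻¹ * x) := rfl

/-- the functions which transform under the column group by the sign -/
def REq (c : α → ℕ) (φ : Perm α → ℚ) : Prop :=
  ∀ x q : Perm α, (∀ y, c (q y) = c y) → φ (x * q) = ((Perm.sign q : ℤ) : ℚ) * φ x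

theorem REq.mrep {c : α → ℕ} {φ : Perm α → ℚ} (h : REq c φ) (g : Perm α) : REq c (mrep g φ) := by
  intro x q hq
  rw [mrep_apply, mrep_apply, ← mul_assoc, h _ q hq]

theorem REq.add {c : α → ℕ} {φ ψ : Perm α → ℚ} (h : REq c φ) (h' : REq c ψ) : REq c (φ + ψ) := by
  intro x q hq
  rw [Pi.add_apply, Pi.add_apply, h _ q hq, h' _ q hq]
  ring

theorem REq.sum {c : α → ℕ} {ι : Type*} (s : Finset ι) (φ : ι → Perm α → ℚ)
    (h : ∀ i ∈ s, REq c (φ i)) : REq c (∑ i ∈ s, φ i) := by
  classical
  induction s using Finset.induction_on with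
  | empty => intro x q _; simp
  | insert i s hi ih =>
    rw [sum_insert hi]
    exact (h i (mem_insert_self _ _)).add (ih fun j hj => h j (mem_insert_of_mem hj))

theorem REq.eq_zero {r c : α → ℕ} (T : Tab r c) {φ : Perm α → ℚ} (h : REq c φ) (r' : α → ℕ)
    (hr : ∑ y, r' y < ∑ y, r y) (hinv : RowInv Pool.Agent.Q56.SP.mrep r' φ) : φ = 0 := by
  funext x
  obtain ⟨y₁, y₂, hne, h1, h2⟩ := exists_pair T r' hr x
  have e1 : φ (swap y₁ y₂ * x) = φ x := by
    have h3 := hinv (swap y₁ y₂) (fun z => by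
      rcases eq_or_ne z y₁ with rfl | hz1
      · rw [swap_apply_left, h1]
      rcases eq_or_ne z y₂ with rfl | hz2
      · rw [swap_apply_right, h1]
      · rw [swap_apply_of_ne_of_ne hz1 hz2])
    have h4 := congrFun h3 x
    rw [mrep_apply, swap_inv] at h4
    exact h4
  have e2 : swap y₁ y₂ * x = x * swap (x⁻¹ y₁) (x⁻¹ y₂) := by
    rw [mul_swap_eq_swap_mul]
    simp
  rw [e2, h _ _ (fun z => by
    rcases eq_or_ne z (x⁻¹ y₁) with rfl | hz1
    · rw [swap_apply_left, h2]
    rcases eq_or_ne z (x⁻¹ y₂) with rfl | hz2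
    · rw [swap_apply_right, h2]
    · rw [swap_apply_of_ne_of_ne hz1 hz2])] at e1
  have hne' : x⁻¹ y₁ ≠ x⁻¹ y₂ := fun h => hne (x⁻¹.injective h)
  rw [Perm.sign_swap hne'] at e1
  simp only [Units.val_neg, Units.val_one, Int.cast_neg, Int.cast_one, neg_mul, one_mul] at e1
  simp only [Pi.zero_apply]
  linarith

open Classical in
/-- the alternating sum of the column group -/
noncomputable def psi (c : α → ℕ) : Perm α → ℚ :=
  fun z => if ∀ x, c (z x) = c x then ((Perm.sign z : ℤ) : ℚ) else 0

theorem psi_req (c : α → ℕ) : REq c (psi c) := by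
  intro x q hq
  unfold psi
  have h1 : (∀ y, c ((x * q) y) = c y) ↔ ∀ y, c (x y) = c y := by
    constructor
    · intro h y
      have h2 := h (q⁻¹ y)
      have h3 := hq (q⁻¹ y)
      have h4 : q (q⁻¹ y) = y := by simp
      rw [Perm.mul_apply, h4] at h2
      rw [h4] at h3
      rw [h2, h3]
    · intro h y
      rw [Perm.mul_apply, h, hq]
  by_cases h2 : ∀ y, c (x y) = c y
  · rw [if_pos h2, if_pos (h1.2 h2), map_mul]
    push_cast
    ring
  · rw [if_neg h2, if_neg (fun h => h2 (h1.1 h)), mul_zero]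

/-- the Young symmetrizer -/
noncomputable def phi (r c : α → ℕ) : Perm α → ℚ := rowSum mrep r (psi c)

theorem rho_rowSum {V : Type*} [AddCommGroup V] [Module ℚ V] (ρ : Representation ℚ (Perm α) V)
    (r : α → ℕ) (s : Perm α) (hs : ∀ x, r (s x) = r x) (v : V) :
    ρ s (rowSum ρ r v) = rowSum ρ r v := by
  unfold rowSum
  rw [map_sum]
  refine sum_bij' (fun p _ => s * p) (fun p _ => s⁻¹ * p) ?_ ?_ ?_ ?_ ?_
  · intro p hp
    rw [mem_Row] at hp ⊢
    intro x
    rw [Perm.mul_apply, hs, hp]
  · intro p hp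
    rw [mem_Row] at hp ⊢
    intro x
    rw [Perm.mul_apply]
    have h1 := hs (s⁻¹ (p x))
    have h2 : s (s⁻¹ (p x)) = p x := by simp
    rw [h2, hp] at h1
    exact h1.symm
  · intro p _; simp
  · intro p _; simp
  · intro p _
    rw [map_mul, Module.End.mul_apply]

theorem phi_inv (r c : α → ℕ) : RowInv mrep r (phi r c) := fun g hg => rho_rowSum _ r g hg _

theorem phi_req (r c : α → ℕ) : REq c (phi r c) :=
  REq.sum _ _ fun p _ => (psi_req c).mrep p

theorem phi_low {r c : α → ℕ} (T : Tab r c) : Low mrep r (phi r c) := by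
  intro x i hi
  refine REq.eq_zero T ?_ _ (sum_update r x i hi) (rowInv_move _ r _ (phi_inv r c) x i hi.ne)
  exact (phi_req r c).add (REq.sum _ _ fun y _ => (phi_req r c).mrep _)

end Pool.Agent.Q56.SP
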